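import Pool.Agent.H84.SL.Targets

/-!
# MP_70ba79_ag: row DGC of `slg_modules` (degree of a primitive parametrisation)
-/

set_option autoImplicit false

namespace Pool.Agent.H32.SL

open MvPolynomial SC Pool.Agent.H27.LV Pool.Agent.H84.SM Pool.Agent.H84.SL

/-- the order of a generic linear combination of the coordinates -/
theorem dgc_lead (k K : Type) [Field k] [IsAlgClosed k] [CharZero k] [Field K] [Algebra k K]
    [Algebra.EssFiniteType k K] (htr : Algebra.trdeg k K = 1) (v : DV k K) (x : Fin 3 → K) :
    ∃ c : Fin 3 → k, (0 < poleOrder v x → ∃ i, c i ≠ 0) ∧ ∀ a : Fin 3 → k,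
      (0 < poleOrder v x → ∑ i, c i * a i ≠ 0) →
      max 0 (-(v.ord (∑ i, algebraMap k K (a i) * x i))) = (poleOrder v x : ℤ) := by
  obtain ⟨m, hm⟩ : ∃ m, m = poleOrder v x := ⟨_, rfl⟩
  rw [← hm]
  have hx : ∀ i, ge v (-(m : ℤ)) (x i) := by
    intro i
    right
    have h1 : (-(v.ord (x i))).toNat ≤ m := by
      rw [hm]
      unfold poleOrder
      exact Finset.le_sup (f := fun i => (-(v.ord (x i))).toNat) (Finset.mem_univ i)
    omega
  have hπ0 := v.unif_ne_zero
  have hπ : ge v (m : ℤ) (v.unif ^ m) := Or.inr (by rw [v.ord_unif_pow])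
  have hπm : v.unif ^ m ≠ 0 := pow_ne_zero _ hπ0
  have hy : ∀ i, ge v 0 (x i * v.unif ^ m) := by
    intro i
    have := (hx i).mul hπ
    rwa [neg_add_cancel] at this
  have hc : ∀ i, ∃ c : k, ge v 1 (x i * v.unif ^ m - algebraMap k K c) := by
    intro i
    refine (rat k K htr v).2 _ ?_
    rcases hy i with h | h
    · rw [h, v.ord_zero]
    · exact h
  choose c hc using hc
  refine ⟨c, ?_, ?_⟩
  · intro hpos
    obtain ⟨i, _, hi⟩ := Finset.exists_mem_eq_sup (Finset.univ : Finset (Fin 3))
      Finset.univ_nonempty (fun i => (-(v.ord (x i))).toNat)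
    have hi' : (-(v.ord (x i))).toNat = m := by
      rw [hm]
      unfold poleOrder
      exact hi.symm
    refine ⟨i, fun h0 => ?_⟩
    have h1 : v.ord (x i) = -(m : ℤ) := by omega
    have h2 : x i ≠ 0 := by
      intro h3
      rw [h3, v.ord_zero] at h1
      omega
    have h4 := hc i
    rw [h0, map_zero, sub_zero] at h4
    rcases h4 with h4 | h4
    · exact mul_ne_zero h2 hπm h4
    · rw [v.ord_mul' h2 hπm, v.ord_unif_pow, h1] at h4
      omega
  · intro a ha
    obtain ⟨f, hf⟩ : ∃ f, f = ∑ i, algebraMap k K (a i) * x i := ⟨_, rfl⟩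
    rw [← hf]
    rcases Nat.eq_zero_or_pos m with h0 | h0
    · have h1 : ge v 0 f := by
        rw [hf]
        refine ge_sum v _ _ _ fun i _ => ?_
        have h2 := (ge_const v (a i)).mul (hx i)
        rw [h0] at h2
        simpa using h2
      have h2 : 0 ≤ v.ord f := by
        rcases h1 with h | h
        · rw [h, v.ord_zero]
        · exact h
      rw [h0]
      push_cast
      omega
    · have h1 := ha h0
      have h2 : ge v 1 (f * v.unif ^ m - algebraMap k K (∑ i, c i * a i)) := by
        have h3 : f * v.unif ^ m - algebraMap k K (∑ i, c i * a i) =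
            ∑ i, algebraMap k K (a i) * (x i * v.unif ^ m - algebraMap k K (c i)) := by
          rw [hf, Finset.sum_mul, map_sum, ← Finset.sum_sub_distrib]
          refine Finset.sum_congr rfl fun i _ => ?_
          rw [map_mul]
          ring
        rw [h3]
        refine ge_sum v _ _ _ fun i _ => ?_
        have h4 := (ge_const v (a i)).mul (hc i)
        rwa [zero_add] at h4
      have h3 : algebraMap k K (∑ i, c i * a i) ≠ 0 := by
        rw [Ne, map_eq_zero]
        exact h1
      have h4 : f * v.unif ^ m = algebraMap k K (∑ i, c i * a i) +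
          (f * v.unif ^ m - algebraMap k K (∑ i, c i * a i)) := by ring
      have h5 := v.ord_add_eq_left (y := f * v.unif ^ m - algebraMap k K (∑ i, c i * a i)) h3
        (fun h6 => by
          rw [v.ord_base]
          rcases h2 with h7 | h7
          · exact absurd h7 h6
          · omega)
      rw [← h4, v.ord_base] at h5
      have h6 : f ≠ 0 := by
        intro h7
        rw [h7, zero_mul] at h5
        exact h5.1 rfl
      have h7 := h5.2
      rw [v.ord_mul' h6 hπm, v.ord_unif_pow] at h7
      omega

/-- generic coefficients -/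
theorem dgc_gen (k : Type) [Field k] [CharZero k] {ι : Type} (S : Finset ι) (c : ι → Fin 3 → k)
    (hc : ∀ v ∈ S, ∃ i, c v i ≠ 0) :
    ∃ a : Fin 3 → k, (∀ i, a i ≠ 0) ∧ ∀ v ∈ S, ∑ i, c v i * a i ≠ 0 := by
  obtain ⟨Q, hQ⟩ : ∃ Q : MvPolynomial (Fin 3) k, Q = (∏ v ∈ S, ∑ i, C (c v i) * X i) *
    ∏ i, X i := ⟨_, rfl⟩
  have hQ0 : Q ≠ 0 := by
    rw [hQ]
    refine mul_ne_zero (Finset.prod_ne_zero_iff.2 fun v hv => ?_)
      (Finset.prod_ne_zero_iff.2 fun i _ => X_ne_zero i)
    obtain ⟨i, hi⟩ := hc v hv
    intro h
    apply hi
    have h1 := congrArg (eval (fun l => if l = i then (1 : k) else 0)) h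
    simpa using h1
  have hex : ∃ a : Fin 3 → k, eval a Q ≠ 0 := by
    by_contra hcon
    apply hQ0
    refine MvPolynomial.funext fun a => ?_
    rw [map_zero]
    by_contra h
    exact hcon ⟨a, h⟩
  obtain ⟨a, ha⟩ := hex
  rw [hQ, map_mul, map_prod, map_prod] at ha
  have h1 := left_ne_zero_of_mul ha
  have h2 := right_ne_zero_of_mul ha
  rw [Finset.prod_ne_zero_iff] at h1 h2
  refine ⟨a, fun i => by simpa using h2 i (Finset.mem_univ i), fun v hv => ?_⟩
  have h3 := h1 v hv
  simpa using h3

/-- degree of a form at linear polynomials -/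
theorem dgc_natDegree {k F : Type} [Field k] [Field F] [Algebra k F] (N : ℕ)
    (Φ : MvPolynomial (Fin 3) k) (hΦ : Φ.IsHomogeneous N) (y : Fin 3 → Polynomial F)
    (hy : ∀ i, (y i).natDegree ≤ 1) : (aeval y Φ).natDegree ≤ N := by
  rw [aeval_def, eval₂_eq]
  refine Polynomial.natDegree_sum_le_of_forall_le _ _ fun s hs => ?_
  have hs1 : Finset.sum Finset.univ s = N := by
    have h1 := hΦ (mem_support_iff.1 hs)
    rw [Finsupp.weight_apply, Finsupp.sum_fintype _ _ (by simp)] at h1
    simpa using h1
  have h2 : (algebraMap k (Polynomial F) (coeff s Φ)).natDegree = 0 := by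
    rw [Polynomial.algebraMap_apply]
    exact Polynomial.natDegree_C _
  refine (Polynomial.natDegree_mul_le).trans ?_
  rw [h2, zero_add]
  refine (Polynomial.natDegree_prod_le _ _).trans ?_
  refine (Finset.sum_le_sum fun i _ => (Polynomial.natDegree_pow_le).trans
    (Nat.mul_le_mul_left _ (hy i))).trans ?_
  simp only [mul_one]
  calc ∑ i ∈ s.support, s i ≤ ∑ i, s i :=
        Finset.sum_le_sum_of_subset (Finset.subset_univ _)
    _ = N := hs1

theorem dgc_smul {k : Type} [Field k] (N : ℕ) (Φ : MvPolynomial (Fin 3) k)
    (hΦ : Φ.IsHomogeneous N) (c : k) (p : Fin 3 → k) :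
    eval (c • p) Φ = c ^ N * eval p Φ := by
  rw [eval_eq', eval_eq', Finset.mul_sum]
  refine Finset.sum_congr rfl fun s hs => ?_
  have hs1 : ∑ i, s i = N := by
    have h1 := hΦ (mem_support_iff.1 hs)
    rw [Finsupp.weight_apply, Finsupp.sum_fintype _ _ (by simp)] at h1
    simpa using h1
  simp only [Pi.smul_apply, smul_eq_mul, mul_pow]
  rw [Finset.prod_mul_distrib, Finset.prod_pow_eq_pow_sum, hs1]
  ring

theorem pf_DGC : T_DGC := by
  intro k K _ _ _ _ _ _ htr x hprim ⟨j, hj⟩ N Φ hΦ0 hΦ hΦx
  by_cases hdeg : deg k x = 0
  · rw [hdeg]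
    exact Nat.zero_le _
  have hfin : {v : DV k K | poleOrder v x ≠ 0}.Finite := pfi k K htr (Fin 3) x
  choose c hc1 hc2 using fun v => dgc_lead k K htr v x
  obtain ⟨a, ha0, ha⟩ := dgc_gen k hfin.toFinset c (fun v hv => hc1 v (by
    have := (Set.Finite.mem_toFinset hfin).1 hv
    exact Nat.pos_of_ne_zero this))
  obtain ⟨f, hf⟩ : ∃ f, f = ∑ i, algebraMap k K (a i) * x i := ⟨_, rfl⟩
  have hpole : ∀ v : DV k K, max 0 (-(v.ord f)) = (poleOrder v x : ℤ) := by
    intro v
    rw [hf]
    exact hc2 v a fun hpos => ha v ((Set.Finite.mem_toFinset hfin).2 (by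
      change poleOrder v x ≠ 0
      omega))
  -- `f` is transcendental
  have hex : ∃ v : DV k K, 0 < poleOrder v x := by
    by_contra hcon
    apply hdeg
    unfold deg
    have : ∀ v : DV k K, poleOrder v x = 0 := fun v => by
      by_contra h
      exact hcon ⟨v, Nat.pos_of_ne_zero h⟩
    simp [this]
  have hft : Transcendental k f := by
    intro halg
    have hint : IsIntegral k f := halg.isIntegral
    have h1 : (minpoly k f).degree = 1 := IsAlgClosed.degree_eq_one_of_irreducible k
      (minpoly.irreducible hint)
    obtain ⟨b, hb⟩ := minpoly.mem_range_of_degree_eq_one k f h1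
    obtain ⟨v, hv⟩ := hex
    have h2 := hpole v
    rw [← hb, v.ord_base] at h2
    simp only [neg_zero, max_self] at h2
    omega
  have hfd := Pool.Agent.H36.SC.fin_of_transc htr hft
  have hV5 := (Pool.Agent.H76.KN.v5 k K f hft hfd).2.2
  have hsum : ∑ᶠ v : DV k K, (v.deg : ℤ) * max 0 (-(v.ord f)) = (deg k x : ℤ) := by
    unfold deg
    rw [← Nat.coe_castAddMonoidHom, (Nat.castAddMonoidHom ℤ).map_finsum hfin]
    refine finsum_congr fun v => ?_
    rw [hpole v, (rat k K htr v).1]
    simp
  rw [hsum] at hV5
  have hdegN : deg k x = Module.finrank (IntermediateField.adjoin k {f}) K := by exact_mod_cast hV5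
  rw [hdegN]
  -- the coordinates
  obtain ⟨l, m, hjl, hjm, hlm, hall⟩ : ∃ l m : Fin 3, j ≠ l ∧ j ≠ m ∧ l ≠ m ∧
      ∀ i, i = j ∨ i = l ∨ i = m := by
    clear hf ha0 ha hpole hft hfd hV5 hsum hdegN hΦx hprim hdeg hfin hc1 hc2 hex hj
    revert j
    decide
  have hsum3 : ∀ {M : Type} [AddCommMonoid M] (g : Fin 3 → M), ∑ i, g i = g j + (g l + g m) := by
    intro M _ g
    have hu : (Finset.univ : Finset (Fin 3)) = {j, l, m} := by
      ext i
      simpa using hall i
    rw [hu, Finset.sum_insert (by simp [hjl, hjm]), Finset.sum_pair hlm]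
  obtain ⟨F, hF⟩ : ∃ F, F = IntermediateField.adjoin k {f} := ⟨_, rfl⟩
  rw [← hF] at hfd ⊢
  have hfF : f ∈ F := by
    rw [hF]
    exact IntermediateField.mem_adjoin_simple_self k f
  obtain ⟨fF, hfF'⟩ : ∃ g : F, (g : K) = f := ⟨⟨f, hfF⟩, rfl⟩
  have hal : algebraMap k K (a l) ≠ 0 := by
    rw [Ne, map_eq_zero]
    exact ha0 l
  have halF : algebraMap k F (a l) ≠ 0 := by
    rw [Ne, map_eq_zero]
    exact ha0 l
  have hfe : f = algebraMap k K (a j) + (algebraMap k K (a l) * x l +
      algebraMap k K (a m) * x m) := by
    rw [hf, hsum3, hj, mul_one]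
  have hxl : x l = (f - algebraMap k K (a j) - algebraMap k K (a m) * x m) /
      algebraMap k K (a l) := by
    rw [hfe]
    field_simp
    ring
  -- the polynomial
  obtain ⟨y, hy⟩ : ∃ y : Fin 3 → Polynomial F, y = fun i => if i = j then 1 else if i = m then
    Polynomial.X else Polynomial.C ((fF - algebraMap k F (a j)) / algebraMap k F (a l)) -
      Polynomial.C (algebraMap k F (a m) / algebraMap k F (a l)) * Polynomial.X := ⟨_, rfl⟩
  have hyj : y j = 1 := by rw [hy]; simp
  have hym : y m = Polynomial.X := by
    rw [hy]
    simp [hjm.symm]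
  have hyl : y l = Polynomial.C ((fF - algebraMap k F (a j)) / algebraMap k F (a l)) -
      Polynomial.C (algebraMap k F (a m) / algebraMap k F (a l)) * Polynomial.X := by
    rw [hy]
    simp [hjl.symm, hlm]
  have hyd : ∀ i, (y i).natDegree ≤ 1 := by
    intro i
    rcases hall i with h | h | h
    · rw [h, hyj, Polynomial.natDegree_one]
      exact Nat.zero_le _
    · rw [h, hyl]
      refine (Polynomial.natDegree_sub_le _ _).trans (max_le ?_ ?_)
      · rw [Polynomial.natDegree_C]
        exact Nat.zero_le _
      · exact (Polynomial.natDegree_C_mul_le _ _).trans Polynomial.natDegree_X_le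
    · rw [h, hym]
      exact Polynomial.natDegree_X_le
  obtain ⟨P, hP⟩ : ∃ P, P = aeval y Φ := ⟨_, rfl⟩
  have hPd : P.natDegree ≤ N := by
    rw [hP]
    exact dgc_natDegree N Φ hΦ y hyd
  -- value at `x m`
  have hPx : Polynomial.aeval (x m) P = 0 := by
    have h1 : Polynomial.aeval (x m) P =
        aeval (fun i => Polynomial.aeval (x m) (y i)) Φ := by
      rw [hP]
      have h2 := MvPolynomial.comp_aeval (R := k) (f := y)
        ((Polynomial.aeval (x m) : Polynomial F →ₐ[F] K).restrictScalars k)
      exact congrArg (fun g => g Φ) h2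
    rw [h1]
    have h2 : (fun i => Polynomial.aeval (x m) (y i)) = x := by
      funext i
      rcases hall i with h | h | h
      · rw [h, hyj, map_one, hj]
      · rw [h, hyl, map_sub, map_mul, Polynomial.aeval_C, Polynomial.aeval_C,
          Polynomial.aeval_X, hxl, ← hfF']
        rw [map_div₀, map_div₀, map_sub, ← IsScalarTower.algebraMap_apply k F K,
          ← IsScalarTower.algebraMap_apply k F K, ← IsScalarTower.algebraMap_apply k F K]
        change (↑fF - algebraMap k K (a j)) / algebraMap k K (a l) -
          algebraMap k K (a m) / algebraMap k K (a l) * x m = _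
        ring
      · rw [h, hym, Polynomial.aeval_X]
    rw [h2, hΦx]
  -- `P` is not zero
  have hP0 : P ≠ 0 := by
    intro hP0
    -- values at constants
    have h1 : ∀ γ τ : k, eval (fun i => if i = j then 1 else if i = m then γ else
        (τ - a j) / a l - a m / a l * γ) Φ = 0 := by
      intro γ τ
      obtain ⟨z, hz⟩ : ∃ z : Fin 3 → Polynomial k, z = fun i => if i = j then 1 else if i = m then
        Polynomial.C γ else (Polynomial.X - Polynomial.C (a j)) * Polynomial.C (a l)⁻¹ -
          Polynomial.C (a m / a l * γ) := ⟨_, rfl⟩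
      have hq : aeval z Φ = 0 := by
        have h3 : Polynomial.aeval f (aeval z Φ) = 0 := by
          have h4 : Polynomial.aeval f (aeval z Φ) =
              aeval (fun i => Polynomial.aeval f (z i)) Φ := by
            have h2 := MvPolynomial.comp_aeval (R := k) (f := z)
              (Polynomial.aeval f : Polynomial k →ₐ[k] K)
            exact congrArg (fun g => g Φ) h2
          have h5 : Polynomial.aeval (algebraMap k K γ) P =
              aeval (fun i => Polynomial.aeval (algebraMap k K γ) (y i)) Φ := by
            rw [hP]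
            have h2 := MvPolynomial.comp_aeval (R := k) (f := y)
              ((Polynomial.aeval (algebraMap k K γ) : Polynomial F →ₐ[F] K).restrictScalars k)
            exact congrArg (fun g => g Φ) h2
          rw [h4]
          rw [hP0, map_zero] at h5
          rw [h5]
          have h6 : (fun i => Polynomial.aeval f (z i)) =
              (fun i => Polynomial.aeval (algebraMap k K γ) (y i)) := by
            funext i
            rw [hz]
            rcases hall i with h | h | h
            · rw [h, hyj]
              simp
            · rw [h, hyl]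
              simp only [hjl.symm, hlm, if_false, map_sub, map_mul, Polynomial.aeval_C,
                Polynomial.aeval_X]
              rw [map_div₀, map_div₀, map_div₀, map_inv₀, map_sub,
                ← IsScalarTower.algebraMap_apply k F K,
                ← IsScalarTower.algebraMap_apply k F K, ← IsScalarTower.algebraMap_apply k F K]
              change _ = ((fF : K) - algebraMap k K (a j)) / algebraMap k K (a l) -
                algebraMap k K (a m) / algebraMap k K (a l) * algebraMap k K γ
              rw [hfF']
              ring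
            · rw [h, hym]
              simp [hjm.symm]
          rw [h6]
        by_contra hne
        exact hft ⟨_, hne, h3⟩
      have h7 := congrArg (Polynomial.aeval τ) hq
      rw [map_zero] at h7
      have h8 : Polynomial.aeval τ (aeval z Φ) =
          aeval (fun i => Polynomial.aeval τ (z i)) Φ := by
        have h2 := MvPolynomial.comp_aeval (R := k) (f := z)
          (Polynomial.aeval τ : Polynomial k →ₐ[k] k)
        exact congrArg (fun g => g Φ) h2
      rw [h8] at h7
      have h9 : (fun i => Polynomial.aeval τ (z i)) = fun i => if i = j then 1 else if i = m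
          then γ else (τ - a j) / a l - a m / a l * γ := by
        funext i
        rw [hz]
        rcases hall i with h | h | h
        · rw [h]
          simp
        · rw [h]
          simp only [hjl.symm, hlm, if_false, map_sub, map_mul, Polynomial.aeval_C,
            Polynomial.aeval_X, Algebra.algebraMap_self, RingHom.id_apply]
          ring
        · rw [h]
          simp [hjm.symm]
      rw [h9, aeval_eq_eval] at h7
      exact h7
    have h2 : X j * Φ = 0 := by
      refine MvPolynomial.funext fun p => ?_
      rw [map_mul, eval_X, map_zero]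
      by_cases hpj : p j = 0
      · rw [hpj, zero_mul]
      · have h3 := h1 (p m / p j) (a l * (p l / p j) + a j + a m * (p m / p j))
        have h4 : p = p j • (fun i => if i = j then 1 else if i = m then p m / p j else
            ((a l * (p l / p j) + a j + a m * (p m / p j)) - a j) / a l -
              a m / a l * (p m / p j)) := by
          funext i
          have hal' := ha0 l
          rcases hall i with h | h | h
          · rw [h]
            simp
          · rw [h]
            simp only [Pi.smul_apply, hjl.symm, hlm, if_false, smul_eq_mul]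
            field_simp
            ring
          · rw [h]
            simp only [Pi.smul_apply, hjm.symm, if_false, if_true, smul_eq_mul]
            field_simp
        rw [h4, dgc_smul N Φ hΦ, h3]
        simp
    exact (mul_ne_zero (X_ne_zero j) hΦ0) h2
  -- the field is generated by `x m`
  have hint : IsIntegral F (x m) := IsIntegral.of_finite F (x m)
  have htop : IntermediateField.adjoin F {x m} = ⊤ := by
    have hmem : ∀ i, x i ∈ (IntermediateField.adjoin F {x m}).restrictScalars k := by
      intro i
      rw [IntermediateField.mem_restrictScalars]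
      have hxm : x m ∈ IntermediateField.adjoin F {x m} :=
        IntermediateField.mem_adjoin_simple_self F _
      have hcst : ∀ b : k, algebraMap k K b ∈ IntermediateField.adjoin F {x m} := fun b => by
        rw [IsScalarTower.algebraMap_apply k F K]
        exact IntermediateField.algebraMap_mem _ _
      rcases hall i with h | h | h
      · rw [h, hj]
        exact one_mem _
      · rw [h, hxl]
        refine div_mem (sub_mem (sub_mem ?_ (hcst _)) (mul_mem (hcst _) hxm)) (hcst _)
        rw [← hfF']
        exact IntermediateField.algebraMap_mem _ fF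
      · rw [h]
        exact hxm
    have hle : (⊤ : IntermediateField k K) ≤
        (IntermediateField.adjoin F {x m}).restrictScalars k := by
      rw [← (show IntermediateField.adjoin k (Set.range x) = ⊤ from hprim)]
      refine IntermediateField.adjoin_le_iff.2 ?_
      rintro _ ⟨i, rfl⟩
      exact hmem i
    refine eq_top_iff.2 fun z _ => ?_
    have := hle (IntermediateField.mem_top (x := z))
    exact IntermediateField.mem_restrictScalars k |>.1 this
  rw [← IntermediateField.finrank_top', ← htop, IntermediateField.adjoin.finrank hint]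
  refine le_trans ?_ hPd
  exact Polynomial.natDegree_le_natDegree (minpoly.degree_le_of_ne_zero F (x m) hP0 hPx)

end Pool.Agent.H32.SL
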